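import Mathlib
import Pool.Agent.H709Exc.Main
import Pool.Agent.H709Exc.TriSplit

set_option autoImplicit false

universe u

namespace Pool.Agent.Results.MP_48d4bc_co.BipartiteAndTriangle

open Pool.Agent.H709Exc

/-- Exceptional pairs `(G₁, G₂)` when one of the two graphs is bipartite, or `G₁` is 3-colourable
and `G₂` contains a triangle. -/
theorem result {k l : ℕ} (G₁ : SimpleGraph (Fin k)) (G₂ : SimpleGraph (Fin l)) :
    (G₁.IsAcyclic → ¬ Exceptional.{u} G₁ G₂) ∧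
    (G₁.Colorable 2 → ¬ G₁.IsAcyclic →
      (Exceptional.{u} G₁ G₂ ↔ FinArrow.{u} G₁ G₂ ∧ ¬ IsStarForest G₂)) ∧
    (G₁.Colorable 2 → ¬ G₁.IsAcyclic → G₂.IsAcyclic →
      (Exceptional.{u} G₁ G₂ ↔ ¬ IsStarForest G₂)) ∧
    (¬ G₁.Colorable 2 → G₂.Colorable 2 → ¬ Exceptional.{u} G₁ G₂) ∧
    (G₁.Colorable 3 → ¬ G₂.CliqueFree 3 →
      (Exceptional.{u} G₁ G₂ ↔ FinArrow.{u} G₁ G₂)) := by
  obtain ⟨h1, h2, h3, h4⟩ := main.{u} G₁ G₂
  exact ⟨h1, h2, h3, h4, fun a b => ⟨fun h => h.1, fun h => ⟨h, two_of_three G₁ G₂ a b⟩⟩⟩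

end Pool.Agent.Results.MP_48d4bc_co.BipartiteAndTriangle
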